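import Pool.Agent.FS.GoogolLog.A

namespace Pool.Agent.FS.GoogolLog

open Finset Pool.Agent.Lib.MP_d38296_lc

theorem r_zero (N : ℕ) : LL N 0 = {[]} := rfl

theorem r_mass {ρ L : ℝ} (hρ : 0 < ρ) (N v : ℕ) (hL : ∑ a ∈ Ico 1 v, ρ ^ a / ρ ^ v ≤ L) (k : ℕ) :
    ∑ h ∈ LL N k, (if mx h ≤ v then ρ ^ h.sum / ρ ^ (k * v) else 0) ≤ (L + 1) ^ k := by
  have L0 : 0 ≤ L := (sum_nonneg fun a _ => by positivity).trans hL
  induction k with
  | zero =>
    rw [r_zero, sum_singleton]
    split_ifs <;> simp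
  | succ k ih =>
    rw [sum_LL_succ, pow_succ]
    refine le_trans (sum_le_sum fun h _ => ?_)
      ((sum_mul _ _ _).symm.le.trans (mul_le_mul_of_nonneg_right ih (by linarith)))
    by_cases hm : mx h ≤ v
    · rw [if_pos hm]
      have e : ∀ a, (if mx (h ++ [a]) ≤ v then ρ ^ (h ++ [a]).sum / ρ ^ ((k + 1) * v) else 0) =
          ρ ^ h.sum / ρ ^ (k * v) * (if a ≤ v then ρ ^ a / ρ ^ v else 0) := fun a => by
        rw [mx_append]
        by_cases ha : a ≤ v
        · rw [if_pos (max_le hm ha), if_pos ha, List.sum_append, List.sum_singleton, pow_add,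
            add_mul, one_mul, pow_add, div_mul_div_comm]
        · rw [if_neg fun h' => ha ((le_max_right _ _).trans h'), if_neg ha, mul_zero]
      simp only [e]
      rw [← mul_sum, ← sum_filter]
      refine mul_le_mul_of_nonneg_left ?_ (by positivity)
      refine (sum_le_sum_of_subset_of_nonneg (t := insert v (Ico 1 v)) (fun a ha => ?_)
        fun a _ _ => by positivity).trans ?_
      · simp only [mem_filter, mem_Icc, mem_insert, mem_Ico] at ha ⊢
        omega
      · rw [sum_insert (by simp), div_self (by positivity)]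
        linarith
    · rw [if_neg hm, zero_mul]
      refine le_of_eq (sum_eq_zero fun a _ => ?_)
      rw [mx_append, if_neg fun h' => hm ((le_max_left _ _).trans h')]

theorem bad_mass {n : ℕ} {η ρ q L : ℝ} {V Δ : ℕ} (P : Par n η ρ q L V Δ) (N k : ℕ) (hk : k ≤ n) :
    ∑ h ∈ LL N k, (if mx h < V ∨ N < mx h + n * Δ then lam ρ q L (N / 2) n h else 0) ≤
      ((V + n * Δ + 1 : ℕ) : ℝ) * (L + 1) ^ n * q ^ (N / 2 - (V + n * Δ)) := by
  have hρ : 0 < ρ := one_pos.trans P.one_lt
  have hq := P.q_pos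
  have hL := P.L_pos
  generalize n * Δ = m
  set Bd : Finset ℕ := range V ∪ Icc (N - m) N with hBd
  set C : ℝ := q ^ (N / 2 - (V + m)) * (L + 1) ^ (n - k) with hC
  have C0 : 0 ≤ C := by positivity
  have hc : Bd.card ≤ V + m + 1 := by
    refine (card_union_le _ _).trans ?_
    rw [card_range, Nat.card_Icc]
    omega
  have key : ∀ h ∈ LL N k, (if mx h < V ∨ N < mx h + m then lam ρ q L (N / 2) n h else 0) ≤
      (∑ v ∈ Bd, if mx h ≤ v then ρ ^ h.sum / ρ ^ (k * v) else 0) * C := fun h hh => by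
    have nn : ∀ v ∈ Bd, (0 : ℝ) ≤ if mx h ≤ v then ρ ^ h.sum / ρ ^ (k * v) else 0 := fun v _ => by
      split_ifs
      · positivity
      · exact le_rfl
    split_ifs with hb
    · have h1 := mx_le_N hh
      have h2 : mx h ∈ Bd := by
        simp only [hBd, mem_union, mem_range, mem_Icc]
        omega
      have h3 := single_le_sum nn h2
      rw [if_pos le_rfl] at h3
      refine le_trans ?_ (mul_le_mul_of_nonneg_right h3 C0)
      unfold lam wt
      rw [((mem_LL N k h).1 hh).1, mul_assoc]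
      refine mul_le_mul_of_nonneg_left (mul_le_mul ?_ ?_ (by positivity) (by positivity))
        (by positivity)
      · exact pow_le_pow_of_le_one hq.le P.q_lt.le (by omega)
      · exact pow_le_pow_left₀ hL.le (by linarith) _
    · exact mul_nonneg (sum_nonneg nn) C0
  refine (sum_le_sum key).trans ?_
  rw [← sum_mul, sum_comm]
  have h4 : ∑ v ∈ Bd, ∑ h ∈ LL N k, (if mx h ≤ v then ρ ^ h.sum / ρ ^ (k * v) else 0) ≤
      ((V + m + 1 : ℕ) : ℝ) * (L + 1) ^ k := by
    refine (sum_le_sum fun v _ => r_mass hρ N v (P.low_up v) k).trans ?_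
    rw [sum_const, nsmul_eq_mul]
    exact mul_le_mul_of_nonneg_right (by exact_mod_cast hc) (by positivity)
  refine (mul_le_mul_of_nonneg_right h4 C0).trans (le_of_eq ?_)
  have e : (L + 1) ^ n = (L + 1) ^ k * (L + 1) ^ (n - k) := by
    rw [← pow_add, Nat.add_sub_cancel' hk]
  rw [hC, e]
  ring

theorem Qm_le_total {W : List ℕ → ℝ} (hW : ∀ l, 0 ≤ W l) (N j k : ℕ) :
    ∑ h ∈ LL N k, Qm W N j h ≤ ∑ l ∈ LL N (k + j), W l := by
  induction j generalizing k with
  | zero => exact le_of_eq (sum_congr rfl fun h _ => Qm_zero W N h)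
  | succ j ih =>
    have h1 := ih (k + 1)
    rw [sum_LL_succ, add_assoc, add_comm 1 j] at h1
    refine le_trans (sum_le_sum fun h _ => ?_) h1
    rw [Qm_succ]
    refine sum_le_sum fun a _ => ?_
    split_ifs
    · exact le_rfl
    · exact Qm_nonneg hW N _ _

theorem pow_half_le {q : ℝ} (h0 : 0 < q) (h1 : q < 1) (K N : ℕ) :
    q ^ (N / 2 - K) ≤ √q ^ N / √q ^ (2 * K + 1) := by
  have s0 : 0 < √q := Real.sqrt_pos.2 h0
  have s1 : √q ≤ 1 := Real.sqrt_le_one.2 h1.le
  rw [le_div_iff₀ (by positivity)]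
  calc q ^ (N / 2 - K) * √q ^ (2 * K + 1) = √q ^ (2 * (N / 2 - K) + (2 * K + 1)) := by
        rw [pow_add _ (2 * (N / 2 - K)), pow_mul _ 2 (N / 2 - K), Real.sq_sqrt h0.le]
    _ ≤ √q ^ N := pow_le_pow_of_le_one s0.le s1 (by omega)

end Pool.Agent.FS.GoogolLog
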