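import Pool.Agent.FS.GoogolLog.A

namespace Pool.Agent.FS.GoogolLog

open Finset MeasureTheory Pool.Agent.Lib.MP_d38296_lc

universe u

theorem g_perm (ρ q L : ℝ) (c n : ℕ) {l l' : List ℕ} (h : l.Perm l') :
    lam ρ q L c n l = lam ρ q L c n l' := by
  have h1 : mx l = mx l' := by rw [mx, mx, List.toFinset_eq_of_perm _ _ h]
  rw [lam, lam, h.sum_eq, h.length_eq, h1]

theorem g_sum (ρ q L Z : ℝ) (c n N : ℕ) (g : List ℕ → ℝ) :
    ∑ S ∈ (Icc 1 N).powersetCard n,
      (if S ∈ (Icc 1 N).powersetCard n then (n.factorial : ℝ) * lam ρ q L c n S.toList / Z else 0) *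
        ((∑ l ∈ S.toList.permutations.toFinset, g l) / (n.factorial : ℝ)) =
    (∑ l ∈ LL N n, lam ρ q L c n l * g l) / Z := by
  rw [← sum_sets_orders, sum_div]
  refine sum_congr rfl fun S hS => ?_
  have hf : (0 : ℝ) < (n.factorial : ℝ) := by exact_mod_cast n.factorial_pos
  have : ∑ l ∈ S.toList.permutations.toFinset, lam ρ q L c n l * g l =
      lam ρ q L c n S.toList * ∑ l ∈ S.toList.permutations.toFinset, g l := by
    rw [mul_sum]
    refine sum_congr rfl fun l hl => ?_
    rw [List.mem_toFinset, List.mem_permutations] at hl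
    rw [g_perm ρ q L c n hl]
  rw [this, if_pos hS]
  field_simp

open Classical in
theorem glue {ρ q L : ℝ} (hρ : 0 < ρ) (hq : 0 < q) (hL : 0 < L) (c n N : ℕ) (hN : n ≤ N)
    {z E : ℝ} (hz : 0 < z) (hE : 0 ≤ E) (hZ : z ≤ ∑ l ∈ LL N n, lam ρ q L c n l)
    (B : List ℕ → Bool)
    (hdet : ∀ A : List ℕ → Bool,
      ∑ l ∈ LL N n, lam ρ q L c n l * (if Wins A l then 1 else 0) ≤
        ∑ l ∈ LL N n, lam ρ q L c n l * (if Wins B l then 1 else 0) + E) :
    ∃ D : Finset ℕ → ℝ, IsInstance n N D ∧
      ∀ (Ω : Type u) [MeasurableSpace Ω] (μ : Measure Ω) [IsProbabilityMeasure μ]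
        (A : Ω → List ℕ → Bool), (∀ h : List ℕ, MeasurableSet {ω | A ω h = true}) →
          winProb μ A n N D ≤ winProb (Measure.dirac ()) (fun _ : Unit => B) n N D + E / z := by
  obtain ⟨Z, hZd⟩ : ∃ Z, Z = ∑ l ∈ LL N n, lam ρ q L c n l := ⟨_, rfl⟩
  have hZ0 : 0 < Z := by rw [hZd]; exact hz.trans_le hZ
  refine ⟨fun S => if S ∈ (Icc 1 N).powersetCard n then
    (n.factorial : ℝ) * lam ρ q L c n S.toList / Z else 0, ⟨fun S => ?_, fun S hS => ?_, ?_⟩, ?_⟩
  · have := lam_pos hρ hq hL c n S.toList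
    beta_reduce
    split_ifs <;> positivity
  · by_cases h : S ∈ (Icc 1 N).powersetCard n
    · exact mem_powersetCard.1 h
    · exact absurd (if_neg h) hS
  · have := g_sum ρ q L Z c n N (fun _ => 1)
    simp only [mul_one] at this
    rw [← hZd, div_self hZ0.ne'] at this
    rw [← this]
    refine sum_congr rfl fun S hS => ?_
    have hf : (0 : ℝ) < (n.factorial : ℝ) := by exact_mod_cast n.factorial_pos
    rw [sum_const, List.toFinset_card_of_nodup (List.nodup_permutations _ S.nodup_toList),
      List.length_permutations, length_toList, (mem_powersetCard.1 hS).2, nsmul_eq_mul, mul_one,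
      div_self hf.ne', mul_one]
  · intro Ω _ μ _ A hA
    rw [winProb, winProb, g_sum, g_sum]
    have e0 : ∀ l, (Measure.dirac ()).real {ω : Unit | Wins ((fun _ : Unit => B) ω) l} =
        if Wins B l then (1 : ℝ) else 0 := by
      intro l
      by_cases h : Wins B l
      · simp [h]
      · simp [h]
    have e : ∀ l, μ.real {ω | Wins (A ω) l} = ∫ ω, (if Wins (A ω) l then (1 : ℝ) else 0) ∂μ := by
      intro l
      rw [← integral_indicator_one (measurableSet_wins A hA l)]
      congr 1
    have hint : ∀ l, Integrable (fun ω => (if Wins (A ω) l then (1 : ℝ) else 0)) μ := by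
      intro l
      exact (integrable_const (1 : ℝ)).indicator (measurableSet_wins A hA l)
    have h1 : ∑ l ∈ LL N n, lam ρ q L c n l * μ.real {ω | Wins (A ω) l} ≤
        ∑ l ∈ LL N n, lam ρ q L c n l * (if Wins B l then 1 else 0) + E := by
      simp_rw [e, ← integral_const_mul]
      rw [← integral_finsetSum _ (fun l _ => (hint l).const_mul _)]
      calc _ ≤ ∫ _ω, (∑ l ∈ LL N n, lam ρ q L c n l * (if Wins B l then 1 else 0) + E) ∂μ :=
            integral_mono (integrable_finsetSum _ fun l _ => (hint l).const_mul _)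
              (integrable_const _) fun ω => hdet (A ω)
        _ = _ := by simp
    have h2 : E / Z ≤ E / z := div_le_div_of_nonneg_left hE hz (by rw [hZd]; exact hZ)
    have h3 := div_le_div_of_nonneg_right h1 hZ0.le
    rw [add_div] at h3
    simp only [e0]
    linarith

end Pool.Agent.FS.GoogolLog
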