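import Pool.Agent.FS.GoogolLog.A

namespace Pool.Agent.FS.GoogolLog

open Finset Pool.Agent.Lib.MP_d38296_lc

theorem p_geom {x : ℝ} (hx : x ≠ 1) (T : ℕ) :
    ∑ t ∈ Icc 1 T, x ^ t = (x ^ (T + 1) - x) / (x - 1) := by
  have h : Icc 1 T = Ico 1 (T + 1) := by
    ext t
    simp only [mem_Icc, mem_Ico]
    omega
  rw [h, geom_sum_Ico hx (by omega), pow_one]

theorem p_le {x : ℝ} (h0 : 0 ≤ x) (h1 : x < 1) (T : ℕ) : ∑ t ∈ Icc 1 T, x ^ t ≤ x / (1 - x) := by
  have h2 : 0 < 1 - x := by linarith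
  have h3 : (x ^ (T + 1) - x) / (x - 1) = (x - x ^ (T + 1)) / (1 - x) := by
    rw [← neg_sub x, ← neg_sub 1 x, neg_div_neg_eq]
  rw [p_geom h1.ne, h3]
  exact div_le_div_of_nonneg_right (by linarith [pow_nonneg h0 (T + 1)]) h2.le

theorem p_ev {x c : ℝ} (h0 : 0 ≤ x) (h1 : x < 1) (hc : c < x / (1 - x)) :
    ∀ᶠ T : ℕ in Filter.atTop, c ≤ ∑ t ∈ Icc 1 T, x ^ t := by
  have h2 : Filter.Tendsto (fun T : ℕ => (x ^ T * x - x) / (x - 1)) Filter.atTop
      (nhds ((0 * x - x) / (x - 1))) :=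
    (((tendsto_pow_atTop_nhds_zero_of_lt_one h0 h1).mul_const x).sub_const x).div_const _
  have h3 : (0 * x - x) / (x - 1) = x / (1 - x) := by
    rw [zero_mul, zero_sub, ← neg_sub 1 x, neg_div_neg_eq]
  rw [h3] at h2
  filter_upwards [h2.eventually (lt_mem_nhds hc)] with T hT
  rw [p_geom h1.ne, pow_succ]
  exact hT.le

theorem p_pow {δ : ℝ} (hδ : 0 < δ) (k : ℕ) : (1 + δ) ^ k - 1 ≤ k * δ * (1 + δ) ^ k := by
  induction k with
  | zero => simp
  | succ k ih =>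
    have h1 : 0 < (1 + δ) ^ k := by positivity
    have h2 : (0 : ℝ) ≤ k := Nat.cast_nonneg k
    have h3 : 0 ≤ ((k : ℝ) + 1) * δ * (1 + δ) ^ k * δ := by positivity
    rw [pow_succ]
    push_cast
    nlinarith

theorem p_low {δ : ℝ} (hδ : 0 < δ) {v : ℕ} (hv : 1 ≤ v) :
    ∑ a ∈ Ico 1 v, (1 + δ) ^ a / (1 + δ) ^ v = 1 / δ * (1 - (1 + δ) / (1 + δ) ^ v) := by
  have h1 : (1 + δ) ^ v ≠ 0 := by positivity
  rw [← sum_div, geom_sum_Ico (by linarith) hv, pow_one, add_sub_cancel_left]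
  field_simp

theorem exists_par (n : ℕ) {η : ℝ} (h0 : 0 < η) (h1 : η < 1) :
    ∃ (ρ q L : ℝ) (V Δ : ℕ), Par n η ρ q L V Δ := by
  obtain ⟨δ, hδ, ha, hb⟩ : ∃ δ : ℝ, 0 < δ ∧ 2 * n * δ < η ∧ (1 + δ) ^ n * (1 - η) < 1 := by
    have e1 : ∀ᶠ δ : ℝ in nhds 0, 2 * n * δ < η :=
      (Continuous.continuousAt (by fun_prop)).eventually_lt continuousAt_const (by simpa using h0)
    have e2 : ∀ᶠ δ : ℝ in nhds 0, (1 + δ) ^ n * (1 - η) < 1 :=
      (Continuous.continuousAt (by fun_prop)).eventually_lt continuousAt_const (by simpa using h0)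
    obtain ⟨δ, h2, h3⟩ := (((e1.and e2).filter_mono nhdsWithin_le_nhds).and
      (self_mem_nhdsWithin (s := Set.Ioi (0 : ℝ)))).exists
    exact ⟨δ, h3, h2.1, h2.2⟩
  obtain ⟨s, hs, hs1, hc, hd⟩ : ∃ s : ℝ, 0 < s ∧ s < 1 ∧ (1 + η) * s * (1 + δ) < η * δ ∧
      (1 - η) * (δ * (1 + δ) ^ n + s) < (1 - s) * δ := by
    have e0 : ∀ᶠ s : ℝ in nhds 0, s < 1 := gt_mem_nhds one_pos
    have e1 : ∀ᶠ s : ℝ in nhds 0, (1 + η) * s * (1 + δ) < η * δ :=
      (Continuous.continuousAt (by fun_prop)).eventually_lt continuousAt_const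
        (by simpa using mul_pos h0 hδ)
    have e2 : ∀ᶠ s : ℝ in nhds 0, (1 - η) * (δ * (1 + δ) ^ n + s) < (1 - s) * δ :=
      (Continuous.continuousAt (by fun_prop)).eventually_lt
        (Continuous.continuousAt (by fun_prop)) (by
          have := mul_lt_mul_of_pos_left hb hδ
          simp only [add_zero, sub_zero]
          linarith)
    obtain ⟨s, h2, h3⟩ := (((e0.and (e1.and e2)).filter_mono nhdsWithin_le_nhds).and
      (self_mem_nhdsWithin (s := Set.Ioi (0 : ℝ)))).exists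
    exact ⟨s, h3, h2.1, h2.2.1, h2.2.2⟩
  have hρ : 1 < 1 + δ := by linarith
  obtain ⟨V, hV⟩ := Filter.eventually_atTop.1
    (((tendsto_pow_atTop_atTop_of_one_lt hρ).eventually_ge_atTop (2 * (1 + δ) / η)).and
      (Filter.eventually_ge_atTop 1))
  have hlo : ∀ k ∈ Icc 1 n, ∀ᶠ T : ℕ in Filter.atTop,
      (1 - η) * (1 / δ) / k ≤ ∑ t ∈ Icc 1 T, ((1 - s) / (1 + δ) ^ k) ^ t := by
    intro k hk
    obtain ⟨k1, kn⟩ := mem_Icc.1 hk
    have hk1 : (1 : ℝ) ≤ k := by exact_mod_cast k1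
    have p1 : 1 ≤ (1 + δ) ^ k := one_le_pow₀ hρ.le
    have p2 : (1 + δ) ^ k ≤ (1 + δ) ^ n := pow_le_pow_right₀ hρ.le kn
    have p3 := p_pow hδ k
    have p4 : (k : ℝ) * δ * (1 + δ) ^ k ≤ k * δ * (1 + δ) ^ n :=
      mul_le_mul_of_nonneg_left p2 (by positivity)
    have p5 : 0 < (1 + δ) ^ k - (1 - s) := by linarith
    refine p_ev (div_nonneg (by linarith) (by linarith))
      ((div_lt_one (by linarith)).2 (by linarith)) ?_
    have e : (1 - s) / (1 + δ) ^ k / (1 - (1 - s) / (1 + δ) ^ k) =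
        (1 - s) / ((1 + δ) ^ k - (1 - s)) := by
      field_simp
    have e' : (1 - η) * (1 / δ) / k = (1 - η) / (δ * k) := by field_simp
    rw [e, e', div_lt_div_iff₀ (by positivity) p5]
    have p6 : (1 + δ) ^ k - (1 - s) ≤ k * (δ * (1 + δ) ^ n + s) := by nlinarith
    have p7 := mul_le_mul_of_nonneg_left p6 (by linarith : 0 ≤ 1 - η)
    have p8 := mul_lt_mul_of_pos_left hd (by linarith : (0 : ℝ) < k)
    nlinarith
  obtain ⟨Δ, hΔ⟩ := ((Filter.eventually_all_finset _).2 hlo).exists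
  refine ⟨1 + δ, 1 - s, 1 / δ, V, Δ, hρ, by linarith, by linarith, by positivity, fun v => ?_,
    fun v hv => ?_, fun k k1 kn T => ?_, fun k k1 kn => hΔ k (mem_Icc.2 ⟨k1, kn⟩)⟩
  · rcases Nat.eq_zero_or_pos v with rfl | hv
    · simp [hδ.le]
    · rw [p_low hδ hv]
      have : 0 ≤ (1 + δ) / (1 + δ) ^ v := by positivity
      exact mul_le_of_le_one_right (by positivity) (by linarith)
  · obtain ⟨a1, a2⟩ := hV v hv
    rw [p_low hδ a2]
    have a3 : (1 + δ) / (1 + δ) ^ v ≤ η / 2 := by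
      rw [div_le_iff₀ h0] at a1
      rw [div_le_iff₀ (by positivity)]
      linarith
    have a4 : (n : ℝ) ≤ 1 / δ * (η / 2) := by
      rw [one_div, inv_mul_eq_div, le_div_iff₀ hδ]
      linarith
    have a5 := mul_le_mul_of_nonneg_left a3 (by positivity : 0 ≤ 1 / δ)
    nlinarith
  · have hk1 : (1 : ℝ) ≤ k := by exact_mod_cast k1
    have p1 : 1 + k * δ ≤ (1 + δ) ^ k := one_add_mul_le_pow (by linarith) k
    have p2 := mul_le_mul_of_nonneg_right p1 (by linarith : 0 ≤ 1 - s)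
    have p3 := mul_le_mul_of_nonneg_left hc.le (by linarith : (0 : ℝ) ≤ k)
    have p0 : 0 ≤ (1 + η) * s * (k - 1) :=
      mul_nonneg (mul_nonneg (by linarith) hs.le) (by linarith)
    have p4 : δ * k ≤ (1 + η) * ((1 + δ) ^ k * (1 - s) - 1) := by
      have := mul_le_mul_of_nonneg_left p2 (by linarith : 0 ≤ 1 + η)
      nlinarith
    have p5 : 0 < (1 + δ) ^ k * (1 - s) - 1 :=
      pos_of_mul_pos_left (lt_of_lt_of_le (by positivity) (p4.trans_eq (mul_comm _ _)))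
        (by linarith)
    refine (p_le (div_nonneg zero_le_one (by linarith))
      ((div_lt_one (by linarith)).2 (by linarith)) T).trans ?_
    generalize (1 + δ) ^ k * (1 - s) = z at p4 p5
    have hz : z ≠ 0 := by linarith
    have e : 1 / z / (1 - 1 / z) = 1 / (z - 1) := by field_simp
    have e' : (1 + η) * (1 / δ) / k = (1 + η) / (δ * k) := by field_simp
    rw [e, e', div_le_div_iff₀ p5 (by positivity)]
    linarith

end Pool.Agent.FS.GoogolLog
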