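import Pool.Agent.FS.GoogolLog.A

namespace Pool.Agent.FS.GoogolLog

open Finset Pool.Agent.Lib.MP_d38296_lc

theorem bb_self (n : ℕ) : bb n n = 0 := by
  unfold bb
  rw [Bv_self]
  simp

theorem bb_rec {n k : ℕ} (hk : 1 ≤ k) (hkn : k < n) :
    bb n k = bb n (k + 1) + max 1 (bb n (k + 1)) / k := by
  have hn : (0 : ℝ) < n := by exact_mod_cast (show 0 < n by omega)
  have hk' : (0 : ℝ) < k := by exact_mod_cast hk
  unfold bb
  rw [Bv_rec hkn]
  push_cast
  generalize Bv n (k + 1) = B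
  have e : max 1 ((n : ℝ) * B / (k + 1)) = n / (k + 1) * max (((k : ℝ) + 1) / n) B := by
    rw [mul_max_of_nonneg _ _ (by positivity)]
    congr 1
    · field_simp
    · ring
  rw [e]
  generalize max (((k : ℝ) + 1) / n) B = M
  field_simp

theorem bb_nonneg {n k : ℕ} (hk : 1 ≤ k) (hkn : k ≤ n) : 0 ≤ bb n k := by
  have h := (Bv_bounds (n := n) (n - k) k (by omega)).1
  unfold bb
  positivity

theorem bb_le {n k : ℕ} (hk : 1 ≤ k) (hkn : k ≤ n) : bb n k ≤ 2 ^ n := by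
  obtain ⟨h0, h1⟩ := Bv_bounds (n := n) (n - k) k (by omega)
  have hk' : (1 : ℝ) ≤ k := by exact_mod_cast hk
  have hn : (0 : ℝ) ≤ n := Nat.cast_nonneg n
  have h2 : (n : ℝ) ≤ 2 ^ n := by exact_mod_cast (Nat.lt_two_pow_self (n := n)).le
  unfold bb
  refine (div_le_self (by positivity) hk').trans (le_trans ?_ h2)
  nlinarith

theorem bb_le_one_iff {n k : ℕ} (hk : 1 ≤ k) (hkn : k ≤ n) :
    Bv n k ≤ (k : ℝ) / n ↔ bb n k ≤ 1 := by
  have hn : (0 : ℝ) < n := by exact_mod_cast (show 0 < n by omega)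
  have hk' : (0 : ℝ) < k := by exact_mod_cast hk
  unfold bb
  rw [le_div_iff₀ hn, div_le_one hk', mul_comm]

theorem s_clear (S : Finset ℕ) (hS : ∀ i ∈ S, i ≠ 0) :
    ∃ A : ℕ, ((∏ i ∈ S, i : ℕ) : ℝ) * ∑ i ∈ S, (1 / (i : ℝ)) = A := by
  induction S using Finset.induction_on with
  | empty => exact ⟨0, by simp⟩
  | insert a S ha ih =>
    obtain ⟨A, hA⟩ := ih fun i hi => hS i (mem_insert_of_mem hi)
    have h0 : (a : ℝ) ≠ 0 := by exact_mod_cast hS a (mem_insert_self _ _)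
    refine ⟨(∏ i ∈ S, i) + a * A, ?_⟩
    rw [prod_insert ha, sum_insert ha, Nat.cast_mul, Nat.cast_add, Nat.cast_mul, ← hA]
    generalize ((∏ i ∈ S, i : ℕ) : ℝ) = P
    generalize ∑ i ∈ S, (1 / (i : ℝ)) = T
    field_simp

theorem s_sum_ne {n k : ℕ} (hn : 3 ≤ n) (hk : 1 ≤ k) (hkn : k ≤ n) :
    ∑ i ∈ Ico k n, (1 / (i : ℝ)) ≠ 1 := by
  have hk' : (0 : ℝ) < k := by exact_mod_cast hk
  have hle : ∀ i ∈ Ico k n, (1 / (i : ℝ)) ≤ 1 / (k : ℝ) := fun i hi =>
    one_div_le_one_div_of_le hk' (by exact_mod_cast (mem_Ico.1 hi).1)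
  have hc : ∑ _i ∈ Ico k n, (1 / (k : ℝ)) = ((n - k : ℕ) : ℝ) / k := by
    rw [sum_const, Nat.card_Ico, nsmul_eq_mul]
    ring
  by_cases h2 : n ≤ 2 * k
  · apply ne_of_lt
    by_cases h3 : k + 1 < n
    · have h4 : ∑ i ∈ Ico k n, (1 / (i : ℝ)) < ∑ _i ∈ Ico k n, (1 / (k : ℝ)) :=
        sum_lt_sum hle ⟨k + 1, mem_Ico.2 ⟨by omega, h3⟩,
          one_div_lt_one_div_of_lt hk' (by push_cast; linarith)⟩
      refine h4.trans_le ?_
      rw [hc, div_le_one hk']
      exact_mod_cast (show n - k ≤ k by omega)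
    · refine (sum_le_sum hle).trans_lt ?_
      rw [hc, div_lt_one hk']
      exact_mod_cast (show n - k < k by omega)
  · obtain ⟨p, hp, p1, p2⟩ := Nat.exists_prime_lt_and_le_two_mul ((n - 1) / 2) (by omega)
    have hm : p ∈ Ico k n := mem_Ico.2 ⟨by omega, by omega⟩
    intro h
    rw [← add_sum_erase _ _ hm] at h
    obtain ⟨A, hA⟩ := s_clear ((Ico k n).erase p) fun i hi => by
      have := mem_Ico.1 (mem_of_mem_erase hi)
      omega
    have hp0 : (p : ℝ) ≠ 0 := by exact_mod_cast hp.ne_zero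
    have h5 : ((∏ i ∈ (Ico k n).erase p, i : ℕ) : ℝ) + p * A =
        p * ((∏ i ∈ (Ico k n).erase p, i : ℕ) : ℝ) := by
      rw [← hA, eq_sub_of_add_eq' h]
      generalize ((∏ i ∈ (Ico k n).erase p, i : ℕ) : ℝ) = P
      field_simp
      ring
    have h6 : (∏ i ∈ (Ico k n).erase p, i) + p * A = p * ∏ i ∈ (Ico k n).erase p, i := by
      exact_mod_cast h5
    have h7 : p ∣ ∏ i ∈ (Ico k n).erase p, i :=
      (Nat.dvd_add_left (dvd_mul_right p A)).1 (h6 ▸ dvd_mul_right p _)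
    obtain ⟨i, hi, c, rfl⟩ := (Prime.dvd_finsetProd_iff hp.prime _).1 h7
    have h8 := mem_Ico.1 (mem_of_mem_erase hi)
    have h9 := ne_of_mem_erase hi
    rcases c with _ | _ | c
    · omega
    · omega
    · have : p * (c + 1 + 1) = p * c + 2 * p := by ring
      omega

theorem s_down {n : ℕ} : ∀ j k : ℕ, k + j = n → 1 ≤ k →
    1 < bb n k ∨ bb n k = ∑ i ∈ Ico k n, (1 / (i : ℝ)) := by
  intro j
  induction j with
  | zero =>
    intro k hk _
    obtain rfl : k = n := by omega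
    right
    rw [bb_self]
    simp
  | succ j ih =>
    intro k hk h1
    have hk' : (0 : ℝ) < k := by exact_mod_cast h1
    have hr := bb_rec h1 (show k < n by omega)
    by_cases hb : 1 < bb n (k + 1)
    · left
      have : 0 ≤ max 1 (bb n (k + 1)) / k := div_nonneg (zero_le_one.trans (le_max_left _ _)) hk'.le
      linarith
    · right
      rcases ih (k + 1) (by omega) (by omega) with h | h
      · exact absurd h hb
      · rw [hr, max_eq_left (not_lt.1 hb), h, sum_eq_sum_Ico_succ_bot (show k < n by omega),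
          add_comm]

theorem exists_slack {n : ℕ} (hn : 3 ≤ n) : ∃ η : ℝ, 0 < η ∧ η < 1 ∧ ∀ k : ℕ, 1 ≤ k → k ≤ n →
    (bb n k ≤ 1 → (1 + η) ^ n * bb n k ≤ (1 - η) ^ n) ∧
      (1 < bb n k → 1 ≤ (1 - η) ^ n * bb n k) := by
  have key : ∀ k ∈ Icc 1 n, ∀ᶠ η : ℝ in nhds 0,
      (bb n k ≤ 1 → (1 + η) ^ n * bb n k ≤ (1 - η) ^ n) ∧
        (1 < bb n k → 1 ≤ (1 - η) ^ n * bb n k) := by
    intro k hk
    obtain ⟨h1, h2⟩ := mem_Icc.1 hk
    by_cases hb : 1 < bb n k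
    · have h3 : ∀ᶠ η : ℝ in nhds 0, (1 : ℝ) < (1 - η) ^ n * bb n k :=
        ContinuousAt.eventually_lt (f := fun _ : ℝ => (1 : ℝ))
          (g := fun η : ℝ => (1 - η) ^ n * bb n k) continuousAt_const (by fun_prop)
          (by simpa using hb)
      exact h3.mono fun η h => ⟨fun h' => absurd hb (not_lt.2 h'), fun _ => h.le⟩
    · have hne : bb n k ≠ 1 := by
        rcases s_down (n := n) (n - k) k (by omega) h1 with h | h
        · exact absurd h hb
        · rw [h]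
          exact s_sum_ne hn h1 h2
      have hlt : bb n k < 1 := lt_of_le_of_ne (not_lt.1 hb) hne
      have h3 : ∀ᶠ η : ℝ in nhds 0, (1 + η) ^ n * bb n k < (1 - η) ^ n :=
        ContinuousAt.eventually_lt (f := fun η : ℝ => (1 + η) ^ n * bb n k)
          (g := fun η : ℝ => (1 - η) ^ n) (by fun_prop) (by fun_prop) (by simpa using hlt)
      exact h3.mono fun η h => ⟨fun _ => h.le, fun h' => absurd h' hb⟩
  have all := (Filter.eventually_all_finset (Icc 1 n)).2 key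
  have io : ∀ᶠ η : ℝ in nhdsWithin 0 (Set.Ioi 0), η ∈ Set.Ioo (0 : ℝ) 1 :=
    Ioo_mem_nhdsGT zero_lt_one
  obtain ⟨η, h1, h2⟩ := (io.and (all.filter_mono nhdsWithin_le_nhds)).exists
  exact ⟨η, h1.1, h1.2, fun k a b => h2 k (mem_Icc.2 ⟨a, b⟩)⟩

end Pool.Agent.FS.GoogolLog
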